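import Mathlib
import Pool.Agent.Helper730.Lex

set_option autoImplicit false
set_option linter.unusedSectionVars false

open Finset

namespace Pool.Agent.Results.MP_2c5934_co.SignedGap

/-- The `h`-fold sumset `hA`. -/
def sumset {G : Type*} [AddCommGroup G] (h : ℕ) (A : Finset G) : Set G :=
  {x | ∃ f : Fin h → G, (∀ i, f i ∈ A) ∧ ∑ i, f i = x}

/-- The `h`-fold signed sumset of `A`. -/
def signedSumset {G : Type*} [AddCommGroup G] (h : ℕ) (A : Finset G) : Set G :=
  {x | ∃ c : G → ℤ, ∑ a ∈ A, |c a| = (h : ℤ) ∧ ∑ a ∈ A, c a • a = x}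

/-- The least size of `hA` over the `m`-subsets `A` of `G`. -/
noncomputable def rho (G : Type*) [AddCommGroup G] (m h : ℕ) : ℕ :=
  sInf {s : ℕ | ∃ A : Finset G, A.card = m ∧ (sumset h A).ncard = s}

/-- The least size of the signed sumset over the `m`-subsets `A` of `G`. -/
noncomputable def rhoSigned (G : Type*) [AddCommGroup G] (m h : ℕ) : ℕ :=
  sInf {s : ℕ | ∃ A : Finset G, A.card = m ∧ (signedSumset h A).ncard = s}

open Pool.Agent.Helper730.Kneser
open Pool.Agent.Helper730.Atoms
open Pool.Agent.Helper730.Signed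
open Pool.Agent.Helper730.Lex

section general

variable {G : Type*} [AddCommGroup G] [Fintype G] [DecidableEq G]

theorem sumset_eq (h : ℕ) (A : Finset G) : sumset h A = (hs A h : Set G) := by
  induction h with
  | zero =>
    ext x
    simp only [sumset, Set.mem_ofPred_eq, hs_zero, Finset.coe_singleton, Set.mem_singleton_iff]
    constructor
    · rintro ⟨f, -, hf⟩
      simpa using hf.symm
    · rintro rfl
      exact ⟨fun i => i.elim0, fun i => i.elim0, by simp⟩
  | succ h ih =>
    ext x
    rw [hs_succ]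
    constructor
    · rintro ⟨f, hf, rfl⟩
      rw [Finset.mem_coe, Fin.sum_univ_castSucc]
      apply Finset.add_mem_add
      · have : (∑ i : Fin h, f i.castSucc) ∈ sumset h A := ⟨fun i => f i.castSucc, fun i => hf _, rfl⟩
        rw [ih] at this
        exact this
      · exact hf _
    · intro hx
      rw [Finset.mem_coe] at hx
      obtain ⟨a, ha, b, hb, rfl⟩ := Finset.mem_add.mp hx
      have : a ∈ sumset h A := by rw [ih]; exact ha
      obtain ⟨f, hf, rfl⟩ := this
      refine ⟨Fin.snoc (α := fun _ => G) f b, ?_, ?_⟩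
      · intro i
        refine Fin.lastCases ?_ (fun j => ?_) i
        · rw [Fin.snoc_last]; exact hb
        · rw [Fin.snoc_castSucc]; exact hf j
      · rw [Fin.sum_univ_castSucc]
        simp

/-- Signed combinations with all coefficients of the same sign. -/
theorem counts (h : ℕ) (A : Finset G) (f : Fin h → G) (hf : ∀ i, f i ∈ A) (e : ℤ)
    (he : |e| = 1) :
    (∑ a ∈ A, |e * ((Finset.univ.filter (fun i => f i = a)).card : ℤ)| = (h : ℤ)) ∧
    (∑ a ∈ A, (e * ((Finset.univ.filter (fun i => f i = a)).card : ℤ)) • a = e • ∑ i, f i) := by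
  constructor
  · have h1 : ∀ a ∈ A, |e * ((Finset.univ.filter (fun i => f i = a)).card : ℤ)|
        = ((Finset.univ.filter (fun i => f i = a)).card : ℤ) := by
      intro a _
      rw [abs_mul, he, one_mul, Nat.abs_cast]
    rw [Finset.sum_congr rfl h1, ← Nat.cast_sum, ← Finset.card_eq_sum_card_fiberwise
      (fun i _ => hf i)]
    simp
  · have h1 : ∀ a ∈ A, (e * ((Finset.univ.filter (fun i => f i = a)).card : ℤ)) • a
        = e • ∑ i ∈ Finset.univ.filter (fun i => f i = a), f i := by
      intro a _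
      rw [mul_smul]
      congr 1
      rw [Finset.sum_congr rfl (fun i hi => (Finset.mem_filter.mp hi).2), Finset.sum_const,
        natCast_zsmul]
    rw [Finset.sum_congr rfl h1, ← Finset.smul_sum, Finset.sum_fiberwise_of_maps_to
      (fun i _ => hf i)]

theorem sumset_subset (h : ℕ) (A : Finset G) : sumset h A ⊆ signedSumset h A := by
  rintro x ⟨f, hf, rfl⟩
  obtain ⟨h1, h2⟩ := counts h A f hf 1 (by simp)
  exact ⟨_, h1, by rw [h2, one_smul]⟩

theorem neg_sumset (h : ℕ) (A : Finset G) (x : G) (hx : x ∈ sumset h A) :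
    -x ∈ signedSumset h A := by
  obtain ⟨f, hf, rfl⟩ := hx
  obtain ⟨h1, h2⟩ := counts h A f hf (-1) (by simp)
  exact ⟨_, h1, by rw [h2, neg_smul, one_smul]⟩

theorem sig_mem (h : ℕ) (hh : 2 ≤ h) (A : Finset G) (u v w : G) (hu : u ∈ A) (hv : v ∈ A)
    (hw : w ∈ A) (huv : u ≠ v) (hwu : w ≠ u) (hwv : w ≠ v) :
    u - v + (h - 2) • w ∈ signedSumset h A := by
  refine ⟨fun a => (if a = u then 1 else 0) - (if a = v then 1 else 0)
    + (if a = w then ((h - 2 : ℕ) : ℤ) else 0), ?_, ?_⟩
  · have h1 : ∀ a ∈ A, |(if a = u then (1 : ℤ) else 0) - (if a = v then 1 else 0)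
        + (if a = w then ((h - 2 : ℕ) : ℤ) else 0)|
        = (if a = u then 1 else 0) + (if a = v then 1 else 0)
        + (if a = w then ((h - 2 : ℕ) : ℤ) else 0) := by
      intro a _
      by_cases h1 : a = u
      · subst h1
        simp [huv, hwu.symm]
      · by_cases h2 : a = v
        · subst h2
          simp [huv.symm, hwv.symm]
        · by_cases h3 : a = w
          · subst h3
            simp [hwu, hwv]
          · simp [h1, h2, h3]
    rw [Finset.sum_congr rfl h1, Finset.sum_add_distrib, Finset.sum_add_distrib,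
      Finset.sum_ite_eq' A u, Finset.sum_ite_eq' A v, Finset.sum_ite_eq' A w]
    simp only [hu, hv, hw, if_true]
    push_cast [hh]
    ring
  · simp only [add_smul, sub_smul, ite_smul, zero_smul, one_smul]
    rw [Finset.sum_add_distrib, Finset.sum_sub_distrib, Finset.sum_ite_eq' A u,
      Finset.sum_ite_eq' A v, Finset.sum_ite_eq' A w]
    simp only [hu, hv, hw, if_true, natCast_zsmul]

theorem sig_mem_two (A : Finset G) (u v : G) (hu : u ∈ A) (hv : v ∈ A) (huv : u ≠ v) :
    u - v ∈ signedSumset 2 A := by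
  refine ⟨fun a => (if a = u then 1 else 0) - (if a = v then 1 else 0), ?_, ?_⟩
  · have h1 : ∀ a ∈ A, |(if a = u then (1 : ℤ) else 0) - (if a = v then 1 else 0)|
        = (if a = u then 1 else 0) + (if a = v then 1 else 0) := by
      intro a _
      by_cases h1 : a = u
      · subst h1
        simp [huv]
      · by_cases h2 : a = v
        · subst h2
          simp [huv.symm]
        · simp [h1, h2]
    rw [Finset.sum_congr rfl h1, Finset.sum_add_distrib,
      Finset.sum_ite_eq' A u, Finset.sum_ite_eq' A v]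
    simp only [hu, hv, if_true]
    norm_num
  · simp only [sub_smul, ite_smul, zero_smul, one_smul]
    rw [Finset.sum_sub_distrib, Finset.sum_ite_eq' A u, Finset.sum_ite_eq' A v]
    simp only [hu, hv, if_true]

theorem im_hs (K : AddSubgroup G) (A : Finset G) [DecidableEq (G ⧸ K)] (h : ℕ) :
    hs (im K A) h = im K (hs A h) := by
  classical
  induction h with
  | zero =>
    ext y
    rw [hs_zero, hs_zero, Finset.mem_singleton, mem_im]
    constructor
    · rintro rfl
      exact ⟨0, by simp, rfl⟩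
    · rintro ⟨x, hx, rfl⟩
      rw [Finset.mem_singleton] at hx
      rw [hx]; rfl
  | succ h ih =>
    ext y
    rw [hs_succ, ih, Finset.mem_add, hs_succ, mem_im]
    constructor
    · rintro ⟨a, ha, b, hb, rfl⟩
      obtain ⟨x, hx, rfl⟩ := mem_im.mp ha
      obtain ⟨z, hz, rfl⟩ := mem_im.mp hb
      exact ⟨x + z, Finset.add_mem_add hx hz, rfl⟩
    · rintro ⟨x, hx, rfl⟩
      obtain ⟨a, ha, b, hb, rfl⟩ := Finset.mem_add.mp hx
      exact ⟨_, mem_im.mpr ⟨a, ha, rfl⟩, _, mem_im.mpr ⟨b, hb, rfl⟩, rfl⟩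

end general

section main

variable {p : ℕ}

theorem exp_V (p r : ℕ) (x : Fin r → ZMod p) : p • x = 0 := by
  funext j
  simp

/-- Bounds on `m` from the structure of a set with equal sumset and signed sumset. -/
theorem structure_bound (p r h m : ℕ) (hp : p.Prime) (hp2 : p ≠ 2) (hh : 2 ≤ h)
    (hhp : h ≤ p - 1) (hm : 2 ≤ m) (hmr : m ≤ p ^ r)
    (hle : rhoSigned (Fin r → ZMod p) m h ≤ rho (Fin r → ZMod p) m h) :
    ∃ i : ℕ, (m - 1) / p ^ i + 1 ≤ p ∧
      ∀ j : ℕ, (h * ((m - 1) / p ^ i) + 1) * p ^ i ≤ (h * ((m - 1) / p ^ j) + 1) * p ^ j := by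
  classical
  have : Fact p.Prime := ⟨hp⟩
  have : NeZero p := ⟨hp.ne_zero⟩
  have hp3 := hp.two_le
  set V := Fin r → ZMod p with hV
  -- choose an extremal set
  have hne : {s : ℕ | ∃ A : Finset V, A.card = m ∧ (signedSumset h A).ncard = s}.Nonempty :=
    ⟨_, IS p r m, card_IS p r m hmr, rfl⟩
  obtain ⟨A, hAm, hAs⟩ := Nat.sInf_mem hne
  have h1 : rho V m h ≤ (sumset h A).ncard := Nat.sInf_le ⟨A, hAm, rfl⟩
  have h2 : (signedSumset h A).ncard ≤ (sumset h A).ncard := by
    rw [hAs]
    exact le_trans hle h1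
  have hset : sumset h A = signedSumset h A :=
    Set.eq_of_subset_of_ncard_le (sumset_subset h A) h2 (Set.toFinite _)
  have hcardA : (hs A h).card = rho V m h := by
    have h3 : (sumset h A).ncard = (hs A h).card := by
      rw [sumset_eq, Set.ncard_coe_finset]
    rw [← h3]
    apply le_antisymm _ h1
    rw [hset, hAs]
    exact hle
  have hmemS : ∀ x, x ∈ signedSumset h A → x ∈ hs A h := by
    intro x hx
    rw [← hset, sumset_eq] at hx
    exact hx
  have hup : ∀ j : ℕ, (hs A h).card ≤ (h * ((m - 1) / p ^ j) + 1) * p ^ j := by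
    intro j
    rw [hcardA]
    apply le_trans _ (card_hs_IS p r m j h)
    apply Nat.sInf_le
    refine ⟨IS p r m, card_IS p r m hmr, ?_⟩
    rw [sumset_eq, Set.ncard_coe_finset]
  have hAne : A.Nonempty := by rw [← Finset.card_pos]; omega
  -- the stabiliser
  set K := stab (hs A h) with hK
  obtain ⟨i, hi⟩ : ∃ i, (fs K).card = p ^ i := by
    rw [fs_card_eq]
    have hd : Nat.card K ∣ Nat.card V := AddSubgroup.card_addSubgroup_dvd_card K
    rw [Nat.card_eq_fintype_card (α := V), card_V] at hd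
    obtain ⟨i, -, hi⟩ := (Nat.dvd_prime_pow hp).mp hd
    exact ⟨i, hi⟩
  have hq : 0 < p ^ i := pow_pos hp.pos i
  -- the quotient
  have : Fintype (V ⧸ K) := Fintype.ofFinite _
  set X : Finset (V ⧸ K) := im K A with hX
  have hXne : X.Nonempty := by
    obtain ⟨a, ha⟩ := hAne
    exact ⟨_, mem_im.mpr ⟨a, ha, rfl⟩⟩
  have hXh : hs X h = im K (hs A h) := im_hs K A h
  have hexp : ∀ x : V ⧸ K, p • x = 0 := by
    intro x
    obtain ⟨y, rfl⟩ := QuotientAddGroup.mk_surjective x
    rw [← QuotientAddGroup.mk_nsmul, exp_V]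
    rfl
  have hstab : stab (hs X h) = ⊥ := by
    rw [eq_bot_iff]
    intro g hg
    obtain ⟨y, rfl⟩ := QuotientAddGroup.mk_surjective g
    rw [AddSubgroup.mem_bot, QuotientAddGroup.eq_zero_iff]
    rw [hK]
    apply mem_stab_of_forall
    intro x hx
    have h3 : (QuotientAddGroup.mk x : V ⧸ K) ∈ hs X h := by
      rw [hXh]; exact mem_im.mpr ⟨x, hx, rfl⟩
    have h4 := stab_add hg h3
    rw [hXh] at h4
    obtain ⟨z, hz, hzx⟩ := mem_im.mp h4
    rw [← QuotientAddGroup.mk_add] at hzx
    have h5 := QuotientAddGroup.eq.mp hzx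
    have h6 := stab_add h5 hz
    have h7 : z + (-z + (x + y)) = x + y := by abel
    rwa [h7] at h6
  have hcardq : (hs A h).card = p ^ i * (hs X h).card := by
    rw [hXh, ← hi]
    exact card_eq_im K (hs A h) le_rfl
  have hlow := hs_lower hXne h hstab
  have hAX : m ≤ p ^ i * X.card := by
    rw [← hAm, ← hi]
    exact card_le_im K A
  -- sizes
  have hN : (hs X h).card ≤ h * ((m - 1) / p ^ i) + 1 := by
    have h3 := hup i
    rw [hcardq, mul_comm] at h3
    exact Nat.le_of_mul_le_mul_right h3 hq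
  have hX1 : 1 ≤ X.card := Finset.card_pos.mpr hXne
  have hs1 : (m - 1) / p ^ i < X.card := by
    rw [Nat.div_lt_iff_lt_mul hq, mul_comm]
    omega
  have hs2 : X.card ≤ (m - 1) / p ^ i + 1 := by
    have h3 : h * X.card ≤ h * ((m - 1) / p ^ i + 1) := by
      rw [mul_add, mul_one]; omega
    exact Nat.le_of_mul_le_mul_left h3 (by omega)
  have hXc : X.card = (m - 1) / p ^ i + 1 := by omega
  have hcrit : (hs X h).card + h = h * X.card + 1 := by
    have h3 : h * X.card = h * ((m - 1) / p ^ i) + h := by rw [hXc]; ring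
    omega
  have hlift : ∀ u ∈ X, ∃ a ∈ A, (QuotientAddGroup.mk a : V ⧸ K) = u := fun u hu => mem_im.mp hu
  have hneg : ∀ z ∈ hs X h, -z ∈ hs X h := by
    intro z hz
    rw [hXh] at hz ⊢
    obtain ⟨y, hy, rfl⟩ := mem_im.mp hz
    refine mem_im.mpr ⟨-y, ?_, rfl⟩
    apply hmemS
    apply neg_sumset
    rw [sumset_eq]
    exact hy
  have hsig : ∀ u ∈ X, ∀ v ∈ X, u ≠ v → ∀ w ∈ X, w ≠ u → w ≠ v →
      u - v + (h - 2) • w ∈ hs X h := by
    intro u hu v hv huv w hw hwu hwv
    obtain ⟨a, ha, rfl⟩ := hlift u hu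
    obtain ⟨b, hb, rfl⟩ := hlift v hv
    obtain ⟨c, hc, rfl⟩ := hlift w hw
    rw [hXh]
    refine mem_im.mpr ⟨a - b + (h - 2) • c, ?_, rfl⟩
    apply hmemS
    exact sig_mem h hh A a b c ha hb hc (fun e => huv (by rw [e])) (fun e => hwu (by rw [e]))
      (fun e => hwv (by rw [e]))
  have hsig2 : h = 2 → ∀ u ∈ X, ∀ v ∈ X, u ≠ v → u - v ∈ hs X h := by
    intro h22 u hu v hv huv
    obtain ⟨a, ha, rfl⟩ := hlift u hu
    obtain ⟨b, hb, rfl⟩ := hlift v hv
    rw [hXh]
    refine mem_im.mpr ⟨a - b, ?_, rfl⟩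
    apply hmemS
    have := sig_mem_two A a b ha hb (fun e => huv (by rw [e]))
    rw [h22]; exact this
  have hfin := keyD p hp hp2 hexp h hh (by omega) X hXne hstab hcrit hneg hsig hsig2
  refine ⟨i, by omega, fun j => ?_⟩
  have h3 := hup j
  have h4 : (hs X h).card = h * ((m - 1) / p ^ i) + 1 := by
    have h5 : h * X.card = h * ((m - 1) / p ^ i) + h := by rw [hXc]; ring
    omega
  rw [hcardq, h4, mul_comm] at h3
  exact h3

/-- The arithmetic part. -/
theorem arith (p h m k c : ℕ) (hp : p.Prime) (hm : 2 ≤ m)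
    (hk : IsGreatest {j : ℕ | p ^ j + (if h ∣ p - 1 then 0 else 1) ≤ h * m - h + 1} k)
    (hc : IsGreatest {j : ℕ | (h * j + 1) * p ^ k + (if h ∣ p - 1 then 0 else 1)
      ≤ h * m - h + 1} c)
    (hlt : (c + 1) * p ^ k < m) (hcond : h ∣ p - 1 ∨ 1 ≤ k)
    (i : ℕ) (hi : (m - 1) / p ^ i + 1 ≤ p)
    (hmin : ∀ j : ℕ, (h * ((m - 1) / p ^ i) + 1) * p ^ i
      ≤ (h * ((m - 1) / p ^ j) + 1) * p ^ j) : False := by
  obtain ⟨M, rfl⟩ : ∃ M, m = M + 1 := ⟨m - 1, by omega⟩
  have hE : h * (M + 1) - h + 1 = h * M + 1 := by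
    rw [mul_add, mul_one]; omega
  rw [hE] at hk hc
  simp only [Nat.add_sub_cancel] at hi hmin
  have hppos := hp.pos
  set d := (if h ∣ p - 1 then 0 else 1) with hd
  have hd1 : d ≤ 1 := by rw [hd]; split_ifs <;> omega
  have hkub : h * M + 1 < p ^ (k + 1) + d := by
    by_contra hcon
    push Not at hcon
    have := hk.2 hcon
    omega
  have hcub : h * M + 1 < (h * (c + 1) + 1) * p ^ k + d := by
    by_contra hcon
    push Not at hcon
    have := hc.2 hcon
    omega
  have hmin0 := hmin 0
  rw [pow_zero, Nat.div_one, mul_one] at hmin0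
  have hmin1 := hmin 1
  rw [pow_one] at hmin1
  -- the modular argument
  have hmod : ∀ l : ℕ, 1 ≤ l → p ∣ h * M + 1 → d = 1 → h * M + 1 ≤ (h * (M / p) + 1) * p → False := by
    intro l _ hdvd hd1' hle
    have hdm := Nat.div_add_mod M p
    have h1 : h * (M % p) + 1 ≤ p := by
      have h2 : h * M = h * (p * (M / p)) + h * (M % p) := by rw [← mul_add, hdm]
      have h3 : (h * (M / p) + 1) * p = h * (p * (M / p)) + p := by ring
      omega
    have h2 : p ∣ h * (M % p) + 1 := by
      have h3 : h * M + 1 = p * (h * (M / p)) + (h * (M % p) + 1) := by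
        have h2 : h * M = h * (p * (M / p)) + h * (M % p) := by rw [← mul_add, hdm]
        rw [h2]; ring
      rw [h3] at hdvd
      exact (Nat.dvd_add_right (dvd_mul_right p _)).mp hdvd
    have h3 := Nat.le_of_dvd (by omega) h2
    have h4 : h * (M % p) = p - 1 := by omega
    have h5 : h ∣ p - 1 := ⟨M % p, h4.symm⟩
    rw [hd] at hd1'
    simp [h5] at hd1'
  rcases lt_trichotomy i k with hik | hik | hik
  · have h1 : M < p ^ i * (M / p ^ i + 1) := Nat.lt_mul_div_succ M (pow_pos hppos i)
    have h2 : p ^ i * (M / p ^ i + 1) ≤ p ^ i * p := Nat.mul_le_mul_left _ hi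
    have h3 : p ^ i * p ≤ p ^ k := by
      rw [← pow_succ]; exact Nat.pow_le_pow_right hppos hik
    have h4 : p ^ k ≤ (c + 1) * p ^ k := Nat.le_mul_of_pos_left _ (by omega)
    omega
  · subst hik
    have h1 : c + 1 ≤ M / p ^ i := by
      rw [Nat.le_div_iff_mul_le (pow_pos hppos i)]
      omega
    have h2 : (h * (c + 1) + 1) * p ^ i ≤ (h * (M / p ^ i) + 1) * p ^ i :=
      Nat.mul_le_mul_right _ (Nat.add_le_add_right (Nat.mul_le_mul_left h h1) 1)
    have h3 : d = 1 := by omega
    have h4 : h * M + 1 = (h * (c + 1) + 1) * p ^ i := by omega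
    have h5 : 1 ≤ i := by
      rcases hcond with h6 | h6
      · rw [hd] at h3; simp [h6] at h3
      · exact h6
    apply hmod i h5 _ h3 (by omega)
    rw [h4]
    exact Dvd.dvd.mul_left (dvd_pow_self p (by omega)) _
  · have h1 : p ^ (k + 1) ≤ p ^ i := Nat.pow_le_pow_right hppos hik
    have h2 : p ^ i ≤ (h * (M / p ^ i) + 1) * p ^ i := Nat.le_mul_of_pos_left _ (by omega)
    have h3 : d = 1 := by omega
    have h4 : h * M + 1 = p ^ i := by omega
    apply hmod i (by omega) _ h3 (by omega)
    rw [h4]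
    exact dvd_pow_self p (by omega)

/-- The small case. -/
theorem small_case (p r h m : ℕ) (hp : p.Prime) (hp2 : p ≠ 2) (hh : 2 ≤ h) (hr : 1 ≤ r)
    (hm : 2 ≤ m) (hmr : m ≤ p ^ r) (hE : h * (m - 1) + 1 ≤ p) :
    rhoSigned (Fin r → ZMod p) m h ≤ rho (Fin r → ZMod p) m h := by
  classical
  have : Fact p.Prime := ⟨hp⟩
  have : NeZero p := ⟨hp.ne_zero⟩
  have hp3 := hp.two_le
  set V := Fin r → ZMod p with hV
  -- lower bound for `rho`
  have hlow : h * (m - 1) + 1 ≤ rho V m h := by
    apply le_csInf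
    · exact ⟨_, IS p r m, card_IS p r m hmr, rfl⟩
    · rintro s ⟨A, hA, rfl⟩
      rw [sumset_eq, Set.ncard_coe_finset]
      have hAne : A.Nonempty := by rw [← Finset.card_pos]; omega
      by_cases hst : stab (hs A h) = ⊥
      · have h1 := hs_lower hAne h hst
        rw [hA] at h1
        have h2 : h * m = h * (m - 1) + h := by
          obtain ⟨M, rfl⟩ : ∃ M, m = M + 1 := ⟨m - 1, by omega⟩
          rw [Nat.add_sub_cancel]; ring
        omega
      · have h1 : p ≤ (fs (stab (hs A h))).card := by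
          rw [fs_card_eq]
          have hd : Nat.card (stab (hs A h)) ∣ Nat.card V :=
            AddSubgroup.card_addSubgroup_dvd_card _
          rw [Nat.card_eq_fintype_card (α := V), card_V] at hd
          obtain ⟨i, -, hi⟩ := (Nat.dvd_prime_pow hp).mp hd
          rw [hi]
          rcases Nat.eq_zero_or_pos i with h0 | h0
          · exfalso
            have h3 := fs_card_ge_two hst
            rw [fs_card_eq, hi, h0] at h3
            simp at h3
          · calc p = p ^ 1 := (pow_one p).symm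
              _ ≤ p ^ i := Nat.pow_le_pow_right hp.pos h0
        have h2 := card_eq_im (stab (hs A h)) (hs A h) le_rfl
        have h3 : 1 ≤ (im (stab (hs A h)) (hs A h)).card := by
          rw [Nat.one_le_iff_ne_zero]
          intro h0
          rw [h0, mul_zero] at h2
          have := Finset.card_pos.mpr (hs_nonempty hAne h)
          omega
        have h4 : (fs (stab (hs A h))).card ≤ (hs A h).card := by
          rw [h2]; exact Nat.le_mul_of_pos_right _ h3
        omega
  refine le_trans ?_ hlow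
  -- a symmetric progression
  obtain ⟨M, rfl⟩ : ∃ M, m = M + 1 := ⟨m - 1, by omega⟩
  rw [Nat.add_sub_cancel] at hE ⊢
  set v : V := fun _ => 1 with hv
  have hMp : M < p := by nlinarith
  have hinjv : ∀ a b : ℤ, a • v = b • v → (p : ℤ) ∣ a - b := by
    intro a b hab
    have h1 := congrFun hab ⟨0, by omega⟩
    rw [Pi.smul_apply, Pi.smul_apply, zsmul_eq_mul, zsmul_eq_mul, mul_one, mul_one] at h1
    rw [← ZMod.intCast_eq_intCast_iff_dvd_sub]
    exact h1.symm
  set f : ℕ → V := fun i => (2 * (i : ℤ) - M) • v with hf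
  have hfinj : Set.InjOn f (Finset.range (M + 1)) := by
    intro i hi j hj hij
    rw [Finset.mem_coe, Finset.mem_range] at hi hj
    have h1 := hinjv _ _ hij
    have h2 : (2 * (i : ℤ) - M) - (2 * (j : ℤ) - M) = 2 * ((i : ℤ) - j) := by ring
    rw [h2] at h1
    have h3 : (p : ℤ) ∣ (i : ℤ) - j := by
      apply (Int.Prime.dvd_mul' hp h1).resolve_left
      intro h4
      have h5 := Int.le_of_dvd (by norm_num) h4
      omega
    have h4 : (i : ℤ) - j = 0 := by
      apply Int.eq_zero_of_abs_lt_dvd h3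
      rw [abs_lt]
      constructor <;> omega
    omega
  set A := (Finset.range (M + 1)).image f with hA
  have hAc : A.card = M + 1 := by
    rw [hA, Finset.card_image_of_injOn hfinj, Finset.card_range]
  have hsub : signedSumset h A ⊆
      (((Finset.range (h * M + 1)).image (fun j : ℕ => (2 * (j : ℤ) - h * M) • v) : Finset V) :
        Set V) := by
    rintro x ⟨c, hc1, rfl⟩
    rw [hA, Finset.sum_image (fun i hi j hj hij => hfinj hi hj hij)] at hc1 ⊢
    set T : ℤ := ∑ i ∈ Finset.range (M + 1), c (f i) * (2 * (i : ℤ) - M) with hT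
    have hsum : ∑ i ∈ Finset.range (M + 1), c (f i) • f i = T • v := by
      rw [hT, Finset.sum_smul]
      apply Finset.sum_congr rfl
      intro i _
      rw [mul_smul]
    rw [hsum]
    have hTabs : |T| ≤ h * M := by
      calc |T| ≤ ∑ i ∈ Finset.range (M + 1), |c (f i) * (2 * (i : ℤ) - M)| :=
            Finset.abs_sum_le_sum_abs _ _
        _ ≤ ∑ i ∈ Finset.range (M + 1), |c (f i)| * M := by
            apply Finset.sum_le_sum
            intro i hi
            rw [Finset.mem_range] at hi
            rw [abs_mul]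
            apply mul_le_mul_of_nonneg_left _ (abs_nonneg _)
            rw [abs_le]
            constructor <;> omega
        _ = h * M := by rw [← Finset.sum_mul, hc1]
    have hTpar : (2 : ℤ) ∣ T + h * M := by
      have h1 : T + h * M = ∑ i ∈ Finset.range (M + 1),
          (c (f i) * (2 * (i : ℤ) - M) + |c (f i)| * M) := by
        rw [Finset.sum_add_distrib, ← Finset.sum_mul, hc1]
      rw [h1]
      apply Finset.dvd_sum
      intro i _
      have h2 : c (f i) * (2 * (i : ℤ) - M) + |c (f i)| * M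
          = 2 * (c (f i) * i) + (|c (f i)| - c (f i)) * M := by ring
      rw [h2]
      apply dvd_add (dvd_mul_right _ _)
      apply Dvd.dvd.mul_right
      rcases abs_choice (c (f i)) with h3 | h3
      · rw [h3, sub_self]; exact dvd_zero _
      · rw [h3]; exact ⟨-c (f i), by ring⟩
    obtain ⟨J, hJ⟩ := hTpar
    rw [abs_le] at hTabs
    have hJ0 : 0 ≤ J := by omega
    have hJ1 : J ≤ h * M := by
      have : 2 * J ≤ 2 * (h * M : ℤ) := by rw [← hJ]; linarith [hTabs.2]
      linarith
    rw [Finset.mem_coe, Finset.mem_image]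
    refine ⟨J.toNat, ?_, ?_⟩
    · rw [Finset.mem_range]
      zify
      rw [Int.toNat_of_nonneg hJ0]
      linarith
    · have h3 : 2 * ((J.toNat : ℕ) : ℤ) - h * M = T := by
        rw [Int.toNat_of_nonneg hJ0]; linarith
      rw [h3]
  calc rhoSigned V (M + 1) h ≤ (signedSumset h A).ncard := Nat.sInf_le ⟨A, hAc, rfl⟩
    _ ≤ _ := Set.ncard_le_ncard hsub (Finset.finite_toSet _)
    _ = _ := Set.ncard_coe_finset _
    _ ≤ _ := Finset.card_image_le
    _ = h * M + 1 := Finset.card_range _

/-- For an odd prime `p`, `2 ≤ h ≤ p - 1` and `2 ≤ m ≤ p ^ r` with `m > (c + 1) p ^ k`, where `k`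
and `c` are as in the question, the least size of the signed sumset exceeds the least size of the
sumset in `(Z/p)^r` if and only if `h` divides `p - 1` or `k ≥ 1`. -/
theorem result (p r h m k c : ℕ) (hp : p.Prime) (hp2 : p ≠ 2) (hh : 2 ≤ h) (hhp : h ≤ p - 1)
    (hm : 2 ≤ m) (hmr : m ≤ p ^ r)
    (hk : IsGreatest {j : ℕ | p ^ j + (if h ∣ p - 1 then 0 else 1) ≤ h * m - h + 1} k)
    (hc : IsGreatest {j : ℕ | (h * j + 1) * p ^ k + (if h ∣ p - 1 then 0 else 1)
      ≤ h * m - h + 1} c)
    (hlt : (c + 1) * p ^ k < m) :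
    rho (Fin r → ZMod p) m h < rhoSigned (Fin r → ZMod p) m h ↔ (h ∣ p - 1 ∨ 1 ≤ k) := by
  constructor
  · intro hgt
    by_contra hcon
    push Not at hcon
    obtain ⟨hnd, hk0⟩ := hcon
    have hk0' : k = 0 := by omega
    subst hk0'
    have h1 : h * m - h + 1 < p + 1 := by
      by_contra hc2
      push Not at hc2
      have : 1 ≤ 0 := hk.2 (by
        show p ^ 1 + (if h ∣ p - 1 then 0 else 1) ≤ h * m - h + 1
        rw [pow_one, if_neg hnd]; exact hc2)
      omega
    have h2 : h * (m - 1) + 1 ≤ p := by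
      obtain ⟨M, rfl⟩ : ∃ M, m = M + 1 := ⟨m - 1, by omega⟩
      rw [Nat.add_sub_cancel]
      rw [mul_add, mul_one] at h1
      omega
    have hr : 1 ≤ r := by
      by_contra hr
      have : r = 0 := by omega
      rw [this, pow_zero] at hmr
      omega
    have := small_case p r h m hp hp2 hh hr hm hmr h2
    omega
  · intro hcond
    by_contra hcon
    push Not at hcon
    obtain ⟨i, hi1, hi2⟩ := structure_bound p r h m hp hp2 hh hhp hm hmr hcon
    exact arith p h m k c hp hm hk hc hlt hcond i hi1 hi2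

end main

end Pool.Agent.Results.MP_2c5934_co.SignedGap
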